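import Pool.Agent.V5helper57.OT.Stm

/-! Project OT, job PAR. -/

set_option autoImplicit false

open Matrix

namespace Pool.Agent.V5helper70.OT

open Pool.Agent.V5helper57.OT

theorem t_PAR : S_PAR := by
  intro K _ h2 C x y v bxy byx sx sy cx cy htr hsx hsy hω hx hy hv hC hT
  obtain ⟨l, hl⟩ := hC
  obtain ⟨m, hm⟩ := hT
  have hx0 := congrFun hx 0
  have hx1 := congrFun hx 1
  have hy0 := congrFun hy 0
  have hy1 := congrFun hy 1
  have hl0 := congrFun hl 0
  have hl1 := congrFun hl 1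
  have hm0 := congrFun hm 0
  have hm1 := congrFun hm 1
  simp only [Pi.smul_apply, Pi.add_apply, Pi.zero_apply, smul_eq_mul, Matrix.mulVec, dotProduct, Fin.sum_univ_two]
    at hx0 hx1 hy0 hy1 hl0 hl1
  simp [Matrix.mulVec, dotProduct, Fin.sum_univ_two, Matrix.add_apply, Matrix.smul_apply] at hm0 hm1
  have e1 : (v 0 * y 1 - v 1 * y 0) ^ 2 * (bxy * sy) + (x 0 * v 1 - x 1 * v 0) ^ 2 * (byx * sx) = 0 := by
    refine (mul_eq_zero.mp (?_ : (x 0 * y 1 - x 1 * y 0) * _ = 0)).resolve_left hω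
    linear_combination (x 0 * y 1 - x 1 * y 0) * (v 0 * hl1 - v 1 * hl0)
      - v 0 * ((v 0 * y 1 - v 1 * y 0) * hx1 + (x 0 * v 1 - x 1 * v 0) * hy1)
      + v 1 * ((v 0 * y 1 - v 1 * y 0) * hx0 + (x 0 * v 1 - x 1 * v 0) * hy0)
  have e2 : (v 0 * y 1 - v 1 * y 0) ^ 2 * (cy * sy) + (x 0 * v 1 - x 1 * v 0) ^ 2 * (cx * sx) = 0 := by
    linear_combination -(v 0) * hm1 + v 1 * hm0
  by_cases hp : v 0 * y 1 - v 1 * y 0 = 0
  · by_cases hq : x 0 * v 1 - x 1 * v 0 = 0
    · exfalso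
      apply hv
      have a0 : v 0 = 0 := by
        refine (mul_eq_zero.mp (?_ : (x 0 * y 1 - x 1 * y 0) * _ = 0)).resolve_left hω
        linear_combination (x 0) * hp + (y 0) * hq
      have a1 : v 1 = 0 := by
        refine (mul_eq_zero.mp (?_ : (x 0 * y 1 - x 1 * y 0) * _ = 0)).resolve_left hω
        linear_combination (x 1) * hp + (y 1) * hq
      funext i
      fin_cases i
      · exact a0
      · exact a1
    · have h3 : ((x 0 * v 1 - x 1 * v 0) ^ 2 * sx) * (bxy * cx - byx * cy) = 0 := by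
        linear_combination -cy * e1 + bxy * e2
      have h4 := (mul_eq_zero.mp h3).resolve_left (mul_ne_zero (pow_ne_zero 2 hq) hsx)
      exact sub_eq_zero.mp h4
  · have h3 : ((v 0 * y 1 - v 1 * y 0) ^ 2 * sy) * (bxy * cx - byx * cy) = 0 := by
      linear_combination cx * e1 - byx * e2
    have h4 := (mul_eq_zero.mp h3).resolve_left (mul_ne_zero (pow_ne_zero 2 hp) hsy)
    exact sub_eq_zero.mp h4

end Pool.Agent.V5helper70.OT
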