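import Pool.Agent.V5helper57.OT.Stm

/-! Project OT, job TWO. -/

set_option autoImplicit false

open Matrix

namespace Pool.Agent.V5helper70.OT

open Pool.Agent.V5helper57.OT

theorem t_TWO : S_TWO := by
  intro K _ h2 C x y z ε bxy bxz byx byz sx sy sz htr hx hy
  have hx0 := congrFun hx 0
  have hx1 := congrFun hx 1
  have hy0 := congrFun hy 0
  have hy1 := congrFun hy 1
  rw [Matrix.trace_fin_two] at htr
  simp only [Pi.smul_apply, Pi.add_apply, smul_eq_mul, Matrix.mulVec, dotProduct, Fin.sum_univ_two] at hx0 hx1 hy0 hy1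
  refine mul_left_cancel₀ h2 ?_
  linear_combination (y 0) * hx1 - (y 1) * hx0 - (x 0) * hy1 + (x 1) * hy0 - 2 * (y 0 * x 1 - x 0 * y 1) * htr

end Pool.Agent.V5helper70.OT
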